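import Pool.Agent.W242.TDF.Count

set_option autoImplicit false

/-!
# Exponents `P(e)` with `e ^ P(e)` and `e` algebraically dependent

`e ^ e` is the member `P = X`, `y = 1` of the family `e ^ (y P(e))`, the member `n = 1` of the
family `e ^ (e ^ n)` and the member `s = 0` of the family `e ^ (e / (1 - s e))`.
-/

namespace Pool.Agent.Results.MP_58ae59_nt.ExceptionalPolynomials

open Polynomial Module
open Pool.Agent.W242.GG Pool.Agent.W242.TDF

open Classical in
theorem result :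
    -- spaces `W` of numbers `z` algebraic over `ℚ(e)` with `e ^ z` algebraic over `ℚ(e)`
    (∀ X W Y : Submodule ℚ ℂ, FiniteDimensional ℚ X → FiniteDimensional ℚ W →
      FiniteDimensional ℚ Y → (∀ x ∈ X, ∀ z ∈ W, x * z ∈ Y) →
      (∀ z ∈ W, ¬ AlgebraicIndependent ℚ ![Complex.exp 1, z]) →
      (∀ z ∈ W, ¬ AlgebraicIndependent ℚ ![Complex.exp 1, Complex.exp z]) →
        finrank ℚ X * finrank ℚ W ≤ finrank ℚ Y + finrank ℚ X * (finrank ℚ X - 1)) ∧
    -- polynomials
    (∀ (y : ℂ) (n : ℕ), y ≠ 0 →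
      (¬ AlgebraicIndependent ℚ ![Complex.exp 1, y] →
        finrank ℚ (Submodule.span ℚ {P : ℚ[X] | P.natDegree ≤ n ∧ ¬ AlgebraicIndependent ℚ
          ![Complex.exp 1, Complex.exp (y * aeval (Complex.exp 1) P)]}) ^ 2 ≤ 4 * n + 1) ∧
      (finrank ℚ (Submodule.span ℚ {P : ℚ[X] | P.natDegree ≤ n ∧ ¬ AlgebraicIndependent ℚ
        ![Complex.exp 1, Complex.exp (y * aeval (Complex.exp 1) P)]}) + 1) ^ 2 ≤ 8 * n + 4) ∧
    -- powers
    (∀ N : ℕ, (((Finset.Icc 1 N).filter (fun n : ℕ => ¬ AlgebraicIndependent ℚ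
      ![Complex.exp 1, Complex.exp (Complex.exp 1 ^ n)])).card + 1) ^ 2 ≤ 4 * N + 1) ∧
    -- the one parameter family
    {s : ℚ | ¬ AlgebraicIndependent ℚ
      ![Complex.exp 1, Complex.exp (Complex.exp 1 / (1 - s * Complex.exp 1))]}.encard ≤ 2 ∧
    -- differences
    (∀ m n m' n' : ℕ, m < n → m' ≠ m → n + m' = n' + m →
      IsAlgebraic ℚ (Complex.exp (Complex.exp 1 ^ m)) →
      IsAlgebraic ℚ (Complex.exp (Complex.exp 1 ^ n)) →
      AlgebraicIndependent ℚ ![Complex.exp 1, Complex.exp (Complex.exp 1 ^ m')] ∨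
        AlgebraicIndependent ℚ ![Complex.exp 1, Complex.exp (Complex.exp 1 ^ n')]) := by
  refine ⟨?_, ?_, ?_, count_ee_K, ?_⟩
  · intro X W Y hX hW hY hXY hWt h
    exact Pool.Agent.W243.TD.prod1 exp_one_tr X W Y (fun z hz => dep_alg exp_one_tr (hWt z hz))
      (fun z hz => dep_alg exp_one_tr (h z hz)) hXY
  · intro y n hy
    refine ⟨fun hya => ?_, ?_⟩
    · refine span_sq exp_one_tr hy (dep_alg exp_one_tr hya) n _ ?_
      rintro P ⟨h2, h3⟩
      exact ⟨h2, dep_alg exp_one_tr h3⟩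
    · refine span_sq2 exp_one_tr hy n _ ?_
      rintro P ⟨h2, h3⟩
      exact ⟨h2, dep_alg exp_one_tr h3⟩
  · intro N
    have h := count1 exp_one_tr one_ne_zero isAlgebraic_one cexp1_alg N
    simpa only [one_mul] using h
  · intro m n m' n' hmn hm' hd hm hn
    by_contra hcon
    push Not at hcon
    exact sidon_e hmn hm' hd hm hn (dep_alg exp_one_tr hcon.1) (dep_alg exp_one_tr hcon.2)

end Pool.Agent.Results.MP_58ae59_nt.ExceptionalPolynomials
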